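import Pool.Agent.Work.MP_2cf110_an.Defs

/-! # Characters of the algebra of bounded analytic functions on an open plane set -/

open Set Metric Topology
open scoped BoundedContinuousFunction

namespace Pool.Agent.Work.MP_2cf110_an

namespace Hinf

variable {V : Set ℂ} {f g : ℂ → ℂ}

theorem add (hf : Hinf V f) (hg : Hinf V g) : Hinf V (fun z => f z + g z) := by
  obtain ⟨h1, M, hM⟩ := hf
  obtain ⟨h2, N, hN⟩ := hg
  exact ⟨h1.add h2, M + N, fun z hz => (norm_add_le _ _).trans (add_le_add (hM z hz) (hN z hz))⟩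

theorem mul (hf : Hinf V f) (hg : Hinf V g) : Hinf V (fun z => f z * g z) := by
  obtain ⟨h1, M, hM⟩ := hf
  obtain ⟨h2, N, hN⟩ := hg
  refine ⟨h1.mul h2, M * N, fun z hz => ?_⟩
  rw [norm_mul]
  exact mul_le_mul (hM z hz) (hN z hz) (norm_nonneg _) ((norm_nonneg _).trans (hM z hz))

theorem const (c : ℂ) : Hinf V (fun _ => c) :=
  ⟨differentiableOn_const c, ‖c‖, fun _ _ => le_rfl⟩

theorem neg (hf : Hinf V f) : Hinf V (fun z => - f z) := by
  obtain ⟨h1, M, hM⟩ := hf
  exact ⟨h1.neg, M, fun z hz => by rw [norm_neg]; exact hM z hz⟩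

theorem sub (hf : Hinf V f) (hg : Hinf V g) : Hinf V (fun z => f z - g z) := by
  simpa [sub_eq_add_neg] using hf.add hg.neg

theorem sub_const (hf : Hinf V f) (c : ℂ) : Hinf V (fun z => f z - c) := hf.sub (const c)

theorem mono {W : Set ℂ} (hf : Hinf V f) (h : W ⊆ V) : Hinf W f := by
  obtain ⟨h1, M, hM⟩ := hf
  exact ⟨h1.mono h, M, fun z hz => hM z (h hz)⟩

theorem congr (hf : Hinf V f) (h : EqOn g f V) : Hinf V g := by
  obtain ⟨h1, M, hM⟩ := hf
  exact ⟨h1.congr h, M, fun z hz => by rw [h hz]; exact hM z hz⟩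

theorem inv (hf : Hinf V f) {ε : ℝ} (hε : 0 < ε) (h : ∀ z ∈ V, ε ≤ ‖f z‖) :
    Hinf V (fun z => (f z)⁻¹) := by
  refine ⟨hf.1.inv (fun z hz h0 => ?_), ε⁻¹, fun z hz => ?_⟩
  · have := h z hz
    rw [h0, norm_zero] at this
    linarith
  · rw [norm_inv]
    exact inv_anti₀ hε (h z hz)

theorem sum {ι : Type*} (s : Finset ι) {f : ι → ℂ → ℂ} (hf : ∀ i ∈ s, Hinf V (f i)) :
    Hinf V (fun z => ∑ i ∈ s, f i z) := by
  classical
  induction s using Finset.induction_on with
  | empty => simpa using const (V := V) 0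
  | insert a s ha ih =>
    simp only [Finset.sum_insert ha]
    exact (hf a (by simp)).add (ih fun i hi => hf i (by simp [hi]))

end Hinf

/-- characters of the algebra of bounded analytic functions on `W` -/
structure Chr (W : Set ℂ) where
  φ : (ℂ → ℂ) → ℂ
  congr : ∀ f g, Hinf W f → Hinf W g → EqOn f g W → φ f = φ g
  add : ∀ f g, Hinf W f → Hinf W g → φ (fun z => f z + g z) = φ f + φ g
  mul : ∀ f g, Hinf W f → Hinf W g → φ (fun z => f z * g z) = φ f * φ g
  const : ∀ c : ℂ, φ (fun _ => c) = c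

namespace Chr

variable {W : Set ℂ} (χ : Chr W) {f g : ℂ → ℂ}

theorem neg (hf : Hinf W f) : χ.φ (fun z => - f z) = - χ.φ f := by
  have h1 := χ.mul (fun _ => -1) f (Hinf.const _) hf
  rw [χ.const] at h1
  have h2 : (fun z => (-1 : ℂ) * f z) = fun z => - f z := by ext z; ring
  rw [h2] at h1
  rw [h1]; ring

theorem sub (hf : Hinf W f) (hg : Hinf W g) : χ.φ (fun z => f z - g z) = χ.φ f - χ.φ g := by
  have h := χ.add f (fun z => - g z) hf hg.neg
  rw [χ.neg hg] at h
  simpa [sub_eq_add_neg] using h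

theorem sub_const (hf : Hinf W f) (c : ℂ) : χ.φ (fun z => f z - c) = χ.φ f - c := by
  rw [χ.sub hf (Hinf.const c), χ.const]

/-- a character value lies in the closure of the range -/
theorem mem_closure (hf : Hinf W f) : ∀ ε > 0, ∃ z ∈ W, ‖f z - χ.φ f‖ < ε := by
  intro ε hε
  by_contra hcon
  push Not at hcon
  have h1 : Hinf W (fun z => f z - χ.φ f) := hf.sub_const _
  have h2 := h1.inv hε hcon
  have h3 := χ.mul _ _ h1 h2
  rw [χ.sub_const hf, sub_self, zero_mul] at h3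
  have h4 : χ.φ (fun z => (f z - χ.φ f) * (f z - χ.φ f)⁻¹) = χ.φ (fun _ => 1) := by
    refine χ.congr _ _ (h1.mul h2) (Hinf.const _) (fun z hz => ?_)
    have h5 : f z - χ.φ f ≠ 0 := by
      intro h0
      have := hcon z hz
      rw [h0, norm_zero] at this
      linarith
    exact mul_inv_cancel₀ h5
  rw [h4, χ.const] at h3
  exact one_ne_zero h3

theorem norm_le (hf : Hinf W f) {M : ℝ} (hM : ∀ z ∈ W, ‖f z‖ ≤ M) : ‖χ.φ f‖ ≤ M := by
  refine le_of_forall_pos_le_add fun ε hε => ?_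
  obtain ⟨z, hz, h⟩ := χ.mem_closure hf ε hε
  calc ‖χ.φ f‖ = ‖f z - (f z - χ.φ f)‖ := by congr 1; ring
    _ ≤ ‖f z‖ + ‖f z - χ.φ f‖ := norm_sub_le _ _
    _ ≤ M + ε := by linarith [hM z hz]

theorem sum {ι : Type*} (s : Finset ι) {f : ι → ℂ → ℂ} (hf : ∀ i ∈ s, Hinf W (f i)) :
    χ.φ (fun z => ∑ i ∈ s, f i z) = ∑ i ∈ s, χ.φ (f i) := by
  classical
  induction s using Finset.induction_on with
  | empty => simpa using χ.const 0
  | insert a s ha ih =>
    simp only [Finset.sum_insert ha]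
    rw [χ.add _ _ (hf a (by simp)) (Hinf.sum s fun i hi => hf i (by simp [hi])),
      ih fun i hi => hf i (by simp [hi])]

end Chr

/-- the Banach algebra of bounded analytic functions on `V` -/
def HA (V : Set ℂ) : Subalgebra ℂ (↥V →ᵇ ℂ) where
  carrier := {f | ∃ F : ℂ → ℂ, DifferentiableOn ℂ F V ∧ ∀ z : V, F z = f z}
  mul_mem' := by
    rintro f g ⟨F, hF, hFf⟩ ⟨G, hG, hGg⟩
    exact ⟨fun z => F z * G z, hF.mul hG, fun z => by simp [hFf, hGg]⟩
  add_mem' := by
    rintro f g ⟨F, hF, hFf⟩ ⟨G, hG, hGg⟩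
    exact ⟨fun z => F z + G z, hF.add hG, fun z => by simp [hFf, hGg]⟩
  algebraMap_mem' := by
    intro c
    exact ⟨fun _ => c, differentiableOn_const c, fun z => by simp [Algebra.algebraMap_eq_smul_one]⟩

theorem isClosed_HA {V : Set ℂ} (hV : IsOpen V) : IsClosed (HA V : Set (↥V →ᵇ ℂ)) := by
  classical
  refine isClosed_of_closure_subset fun f hf => ?_
  rw [mem_closure_iff_seq_limit] at hf
  obtain ⟨u, hu, hlim⟩ := hf
  choose F hF hFu using hu
  refine ⟨fun z => if h : z ∈ V then f ⟨z, h⟩ else 0, ?_, fun z => by simp⟩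
  have h1 : TendstoUniformlyOn F (fun z => if h : z ∈ V then f ⟨z, h⟩ else 0)
      Filter.atTop V := by
    rw [Metric.tendstoUniformlyOn_iff]
    intro ε hε
    filter_upwards [Metric.tendsto_nhds.1 hlim ε hε] with n hn z hz
    rw [dist_comm] at hn
    simp only [hz, dite_true]
    rw [hFu n ⟨z, hz⟩]
    exact (BoundedContinuousFunction.dist_coe_le_dist _).trans_lt hn
  exact h1.tendstoLocallyUniformlyOn.differentiableOn (Filter.Eventually.of_forall hF) hV

/-- the element of the algebra given by a bounded analytic function -/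
noncomputable def toHA {V : Set ℂ} (f : ℂ → ℂ) (hf : Hinf V f) : HA V :=
  ⟨BoundedContinuousFunction.ofNormedAddCommGroup (fun z : V => f z)
    hf.1.continuousOn.domRestrict hf.2.choose (fun z => hf.2.choose_spec z z.2),
    f, hf.1, fun z => rfl⟩

theorem toHA_apply {V : Set ℂ} (f : ℂ → ℂ) (hf : Hinf V f) (z : V) :
    (toHA f hf : ↥V →ᵇ ℂ) z = f z := rfl

theorem exists_chr {V : Set ℂ} (hV : IsOpen V) {n : ℕ} {f : Fin n → ℂ → ℂ}
    (hf : ∀ j, Hinf V (f j)) (h : ¬ Bez V f) : ∃ χ : Chr V, ∀ j, χ.φ (f j) = 0 := by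
  classical
  haveI : CompleteSpace (HA V) := (isClosed_HA hV).completeSpace_coe
  set I : Ideal (HA V) := Ideal.span (range fun j => toHA (f j) (hf j)) with hI
  have hne : I ≠ ⊤ := by
    intro htop
    apply h
    have h1 : (1 : HA V) ∈ I := by rw [htop]; trivial
    rw [hI, Ideal.mem_span_range_iff_exists_fun] at h1
    obtain ⟨c, hc⟩ := h1
    choose G hG hGc using fun j => (c j).2
    refine ⟨G, fun j => ⟨hG j, ‖(c j : ↥V →ᵇ ℂ)‖, fun z hz => ?_⟩, fun z hz => ?_⟩
    · rw [show G j z = (c j : ↥V →ᵇ ℂ) ⟨z, hz⟩ from hGc j ⟨z, hz⟩]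
      exact BoundedContinuousFunction.norm_coe_le_norm _ _
    · have h2 := congrArg (fun x : HA V => (x : ↥V →ᵇ ℂ) ⟨z, hz⟩) hc
      rw [show ((1 : HA V) : ↥V →ᵇ ℂ) ⟨z, hz⟩ = 1 from rfl] at h2
      rw [← h2]
      rw [AddSubmonoidClass.coe_finsetSum, BoundedContinuousFunction.sum_apply]
      refine Finset.sum_congr rfl fun j _ => ?_
      have h3 : G j z = (c j : ↥V →ᵇ ℂ) ⟨z, hz⟩ := hGc j ⟨z, hz⟩
      show f j z * G j z = (c j : ↥V →ᵇ ℂ) ⟨z, hz⟩ * f j z
      rw [h3, mul_comm]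
  obtain ⟨M, hM, hIM⟩ := I.exists_le_maximal hne
  let ψ := M.toCharacterSpace
  refine ⟨⟨fun F => if hF : Hinf V F then ψ (toHA F hF) else F 0, ?_, ?_, ?_, ?_⟩, ?_⟩
  · intro F G hF hG hFG
    simp only [hF, hG, dite_true]
    congr 1
    apply Subtype.ext
    ext z
    exact hFG z.2
  · intro F G hF hG
    simp only [hF, hG, hF.add hG, dite_true]
    rw [← map_add]
    rfl
  · intro F G hF hG
    simp only [hF, hG, hF.mul hG, dite_true]
    rw [← map_mul]
    rfl
  · intro c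
    simp only [Hinf.const c, dite_true]
    have h1 : toHA (fun _ : ℂ => c) (Hinf.const (V := V) c) = algebraMap ℂ (HA V) c := by
      apply Subtype.ext
      ext z
      show c = (algebraMap ℂ (↥V →ᵇ ℂ) c) z
      simp [Algebra.algebraMap_eq_smul_one]
    rw [h1, AlgHomClass.commutes]
    rfl
  · intro j
    simp only [hf j, dite_true]
    exact M.toCharacterSpace_apply_eq_zero_of_mem (hIM (Ideal.subset_span ⟨j, rfl⟩))

end Pool.Agent.Work.MP_2cf110_an
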