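import Pool.Agent.Work.MP_2cf110_an.Loc

/-! # Cutoff functions along tame functions, examples of tame functions -/

open MeasureTheory Set Metric Topology
open scoped ContDiff Manifold

namespace Pool.Agent.Work.MP_2cf110_an

theorem exists_cut_uc {R : ℝ} {Ω : Set ℂ} (hΩR : Ω ⊆ ball 0 R) {F : ℂ → ℂ}
    (hF : UniformContinuousOn F Ω) (l : ℂ) {t : ℝ} (ht : 0 < t) :
    ∃ X : ℂ → ℝ, ContDiffOn ℝ ∞ X Ω ∧ (∀ z ∈ Ω, 0 ≤ X z ∧ X z ≤ 1) ∧
      (∀ z ∈ Ω, ‖F z - l‖ < t / 2 → X z = 1) ∧ (∀ z ∈ Ω, t ≤ ‖F z - l‖ → X z = 0) ∧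
      ∃ C : ℝ, ∀ z ∈ Ω, ‖fderiv ℝ X z‖ ≤ C := by
  set A : Set ℂ := {z ∈ Ω | ‖F z - l‖ < t / 2} with hA
  set B : Set ℂ := {z ∈ Ω | t ≤ ‖F z - l‖} with hB
  have hd : Disjoint (closure B) (closure A) := by
    rw [Set.disjoint_left]
    intro x hxB hxA
    obtain ⟨ρ, hρ, hρF⟩ := Metric.uniformContinuousOn_iff.1 hF (t / 2) (by linarith)
    obtain ⟨u, hu, hxu⟩ := Metric.mem_closure_iff.1 hxA (ρ / 2) (by linarith)
    obtain ⟨v, hv, hxv⟩ := Metric.mem_closure_iff.1 hxB (ρ / 2) (by linarith)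
    have h1 : dist u v < ρ := by
      calc dist u v ≤ dist u x + dist x v := dist_triangle _ _ _
        _ < ρ := by rw [dist_comm u x]; linarith
    have h2 := hρF u hu.1 v hv.1 h1
    rw [dist_eq_norm] at h2
    have h3 : ‖F v - l‖ ≤ ‖F u - l‖ + ‖F u - F v‖ := by
      calc ‖F v - l‖ = ‖(F u - l) - (F u - F v)‖ := by congr 1; ring
        _ ≤ _ := norm_sub_le _ _
    have h4 := hu.2
    have h5 := hv.2
    linarith
  obtain ⟨f, hf0, hf1, hfI⟩ := exists_contMDiffMap_zero_one_of_isClosed (n := (⊤ : ℕ∞))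
    𝓘(ℝ, ℂ) isClosed_closure isClosed_closure hd
  have hfc : ContDiff ℝ ∞ f := contMDiff_iff_contDiff.1 f.contMDiff
  obtain ⟨C, hC⟩ := (isCompact_closedBall (0 : ℂ) R).exists_bound_of_continuousOn
    (f := fderiv ℝ f)
      ((hfc.of_le (by simp) : ContDiff ℝ 1 f).continuous_fderiv (by norm_num)).continuousOn
  refine ⟨f, hfc.contDiffOn, fun z _ => hfI z, ?_, ?_, C, ?_⟩
  · intro z hz h
    exact hf1 (subset_closure ⟨hz, h⟩)
  · intro z hz h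
    exact hf0 (subset_closure ⟨hz, h⟩)
  · intro z hz
    exact hC z (ball_subset_closedBall (hΩR hz))

theorem exists_cut_an {Ω : Set ℂ} (hΩ : IsOpen Ω) {F : ℂ → ℂ}
    (hF : DifferentiableOn ℂ F Ω) (l : ℂ) {t : ℝ} (ht : 0 < t) :
    ∃ X : ℂ → ℝ, ContDiffOn ℝ ∞ X Ω ∧ (∀ z ∈ Ω, 0 ≤ X z ∧ X z ≤ 1) ∧
      (∀ z ∈ Ω, ‖F z - l‖ < t / 2 → X z = 1) ∧ (∀ z ∈ Ω, t ≤ ‖F z - l‖ → X z = 0) ∧
      ∃ L : ℝ, 0 ≤ L ∧ ∀ z ∈ Ω, ‖fderiv ℝ X z‖ ≤ L * ‖deriv F z‖ := by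
  obtain ⟨G, hGc, hG01, hG1, hG0, L, hL⟩ : ∃ G : ℂ → ℝ, ContDiff ℝ ∞ G ∧
      (∀ x, 0 ≤ G x ∧ G x ≤ 1) ∧ (∀ x, ‖x‖ < t / 2 → G x = 1) ∧ (∀ x, t ≤ ‖x‖ → G x = 0) ∧
      ∃ L : ℝ, ∀ x, ‖fderiv ℝ G x‖ ≤ L := by
    let β : ContDiffBump (0 : ℂ) := ⟨t / 2, t, by linarith, by linarith⟩
    have hGc : ContDiff ℝ ∞ (fun w => β w) := β.contDiff
    obtain ⟨L, hL⟩ := (β.hasCompactSupport.fderiv ℝ).exists_bound_of_continuous
      ((hGc.of_le (by simp) : ContDiff ℝ 1 (fun w => β w)).continuous_fderiv (by norm_num))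
    refine ⟨β, hGc, fun x => ⟨β.nonneg, β.le_one⟩, fun x hx => ?_, fun x hx => ?_, L, hL⟩
    · exact β.one_of_mem_closedBall (by rw [mem_closedBall, dist_zero_right]; exact hx.le)
    · exact β.zero_of_le_dist (by rw [dist_zero_right]; exact hx)
  have hL0 : 0 ≤ L := (norm_nonneg _).trans (hL 0)
  have hFa : ∀ z ∈ Ω, AnalyticAt ℂ F z := fun z hz => hF.analyticAt (hΩ.mem_nhds hz)
  refine ⟨fun z => G (F z - l), ?_, fun z _ => hG01 _, fun z _ h => hG1 _ h,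
    fun z _ h => hG0 _ h, L, hL0, ?_⟩
  · intro z hz
    refine ContDiffAt.contDiffWithinAt ?_
    have h2 : ContDiffAt ℝ ∞ (fun x => F x - l) z :=
      (((hFa z hz).contDiffAt (n := ∞)).restrict_scalars ℝ).sub contDiffAt_const
    exact (hGc.contDiffAt (x := F z - l)).comp z h2
  · intro z hz
    have h1 : HasFDerivAt G (fderiv ℝ G (F z - l)) (F z - l) :=
      ((hGc.differentiable (by simp)) _).hasFDerivAt
    have h2 : HasFDerivAt (fun x => F x - l)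
        ((ContinuousLinearMap.toSpanSingleton ℂ (deriv F z)).restrictScalars ℝ) z :=
      (((hFa z hz).differentiableAt.hasDerivAt.sub_const l).hasFDerivAt).restrictScalars ℝ
    have h3 := h1.comp z h2
    have h4 : fderiv ℝ (fun z => G (F z - l)) z = (fderiv ℝ G (F z - l)).comp
        ((ContinuousLinearMap.toSpanSingleton ℂ (deriv F z)).restrictScalars ℝ) := h3.fderiv
    rw [h4]
    refine (ContinuousLinearMap.opNorm_comp_le _ _).trans ?_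
    refine mul_le_mul (hL _) ?_ (norm_nonneg _) hL0
    refine ContinuousLinearMap.opNorm_le_bound _ (norm_nonneg _) fun v => ?_
    simp [mul_comm]

theorem bddPot_fderiv {p R : ℝ} (hp : 2 < p) {Ω : Set ℂ} (hΩ : IsOpen Ω) (hΩR : Ω ⊆ ball 0 R)
    {X w : ℂ → ℝ} (hX : ContDiffOn ℝ ∞ X Ω) (hw : ∀ z ∈ Ω, ‖fderiv ℝ X z‖ ≤ w z)
    (hwi : IntegrableOn (fun z => w z ^ p) Ω) : BddPot Ω (fun z => ‖fderiv ℝ X z‖) := by
  have h1 : ContinuousOn (fderiv ℝ X) Ω := hX.continuousOn_fderiv_of_isOpen hΩ (by simp)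
  have h2 : ContinuousOn (fun z => ‖fderiv ℝ X z‖ ^ p) Ω :=
    h1.norm.rpow_const fun z _ => Or.inr (by linarith)
  refine bddPot_of_rpow hp hΩ hΩR (fun z _ => norm_nonneg _) h1.norm ?_
  refine Integrable.mono' hwi (h2.aestronglyMeasurable hΩ.measurableSet) ?_
  rw [ae_restrict_iff' hΩ.measurableSet]
  refine Filter.Eventually.of_forall fun z hz => ?_
  rw [Real.norm_eq_abs, abs_of_nonneg (Real.rpow_nonneg (norm_nonneg _) _)]
  exact Real.rpow_le_rpow (norm_nonneg _) (hw z hz) (by linarith)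

theorem BddPot.mono_set {Ω Ω' : Set ℂ} {w : ℂ → ℝ} (hw : BddPot Ω w)
    (h0 : ∀ z, 0 ≤ w z) (h : Ω' ⊆ Ω) : BddPot Ω' w := by
  obtain ⟨K, hK⟩ := hw
  refine ⟨K, fun u hu => ⟨(hK u (h hu)).1.mono_set h, ?_⟩⟩
  refine le_trans ?_ (hK u (h hu)).2
  refine setIntegral_mono_set (hK u (h hu)).1 ?_ (Filter.Eventually.of_forall h)
  exact Filter.Eventually.of_forall fun ζ => div_nonneg (h0 ζ) (norm_nonneg _)

/-- examples of tame functions -/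
theorem tame_of_coordinate {W : Set ℂ} (hW : IsOpen W) {s Φ F : ℂ → ℂ} (hs : Hinf W s)
    (hΦ : Hinf W Φ) (hinj : InjOn Φ W) (hF : DifferentiableOn ℂ F (Φ '' W))
    (hsF : ∀ z ∈ W, s z = F (Φ z))
    (hcase : UniformContinuousOn F (Φ '' W) ∨
      ∃ p : ℝ, 2 < p ∧ IntegrableOn (fun w => ‖deriv F w‖ ^ p) (Φ '' W)) : Tame W s := by
  obtain ⟨hΩ, -⟩ := exists_inverse hW hΦ.1 hinj
  obtain ⟨hΦd, MΦ, hMΦ⟩ := hΦ
  have hΩR : Φ '' W ⊆ ball 0 (MΦ + 1) := by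
    rintro _ ⟨z, hz, rfl⟩
    rw [mem_ball_zero_iff]
    linarith [hMΦ z hz]
  refine ⟨hs, fun l t ht => ⟨Φ, ⟨hΦd, MΦ, hMΦ⟩, hinj, ?_⟩⟩
  rcases hcase with hu | ⟨p, hp, hpi⟩
  · obtain ⟨X, h1, h2, h3, h4, C, h5⟩ := exists_cut_uc hΩR hu l ht
    refine ⟨X, t / 2, by linarith, h1, h2, fun z hz hzt => ?_, fun z hz hzt => ?_, ?_⟩
    · exact h3 _ (mem_image_of_mem _ hz) (by rw [← hsF z hz]; exact hzt)
    · exact h4 _ (mem_image_of_mem _ hz) (by rw [← hsF z hz]; exact hzt)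
    · refine bddPot_fderiv (p := 3) (by norm_num) hΩ hΩR h1 h5 ?_
      exact integrableOn_const (ne_top_of_le_ne_top measure_ball_lt_top.ne (measure_mono hΩR))
  · obtain ⟨X, h1, h2, h3, h4, L, hL, h5⟩ := exists_cut_an hΩ hF l ht
    refine ⟨X, t / 2, by linarith, h1, h2, fun z hz hzt => ?_, fun z hz hzt => ?_, ?_⟩
    · exact h3 _ (mem_image_of_mem _ hz) (by rw [← hsF z hz]; exact hzt)
    · exact h4 _ (mem_image_of_mem _ hz) (by rw [← hsF z hz]; exact hzt)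
    · refine bddPot_fderiv hp hΩ hΩR h1 h5 ?_
      have h6 : IntegrableOn (fun z => L ^ p * ‖deriv F z‖ ^ p) (Φ '' W) := hpi.const_mul _
      refine h6.congr_fun (fun z _ => ?_) hΩ.measurableSet
      show L ^ p * ‖deriv F z‖ ^ p = (L * ‖deriv F z‖) ^ p
      rw [Real.mul_rpow hL (norm_nonneg _)]

/-- every bounded analytic function on a sublevel set of a tame function can be extended to a
global one modulo multiples of the tame function -/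
theorem Tame.exists_ext {W : Set ℂ} (hW : IsOpen W) {s : ℂ → ℂ} (hs : Tame W s) (l : ℂ) {t : ℝ}
    (ht : 0 < t) {h : ℂ → ℂ} (hh : Hinf {z ∈ W | ‖s z - l‖ < t} h) :
    ∃ a, 0 < a ∧ a ≤ t ∧ ∃ H T : ℂ → ℂ, Hinf W H ∧ Hinf {z ∈ W | ‖s z - l‖ < a} T ∧
      ∀ z ∈ W, ‖s z - l‖ < a → H z - h z = (s z - l) * T z := by
  obtain ⟨⟨hsd, Ms, hMs⟩, hs2⟩ := hs
  obtain ⟨Φ, hΦ, hinj, X, a, ha, hX, hX01, hX1, hX0, hXi⟩ := hs2 l (t / 2) (by linarith)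
  obtain ⟨hΩ, Ψ, hΨ, hΨ1⟩ := exists_inverse hW hΦ.1 hinj
  set Ω : Set ℂ := Φ '' W with hΩdef
  have hΩW : ∀ w ∈ Ω, Ψ w ∈ W ∧ Φ (Ψ w) = w := by
    rintro _ ⟨z, hz, rfl⟩
    rw [hΨ1 z hz]
    exact ⟨hz, rfl⟩
  obtain ⟨hΦd, MΦ, hMΦ⟩ := hΦ
  have hΩR : Ω ⊆ ball 0 (MΦ + 1) := by
    rintro _ ⟨z, hz, rfl⟩
    rw [mem_ball_zero_iff]
    linarith [hMΦ z hz]
  have hmapsΨ : MapsTo Ψ Ω W := fun w hw => (hΩW w hw).1
  set F : ℂ → ℂ := fun w => s (Ψ w) with hF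
  have hsF : ∀ z ∈ W, F (Φ z) = s z := by
    intro z hz
    simp only [hF, hΨ1 z hz]
  have hFH : Hinf Ω F := ⟨hsd.comp hΨ hmapsΨ, Ms, fun w hw => hMs _ (hmapsΨ hw)⟩
  obtain ⟨hhd, Mh, hMh⟩ := hh
  have hh' : Hinf {w ∈ Ω | ‖F w - l‖ < t} (fun w => h (Ψ w)) := by
    have hmaps : ∀ w ∈ {w ∈ Ω | ‖F w - l‖ < t}, Ψ w ∈ {z ∈ W | ‖s z - l‖ < t} := by
      rintro w ⟨hw, hwt⟩
      exact ⟨hmapsΨ hw, hwt⟩
    exact ⟨hhd.comp (hΨ.mono fun w hw => hw.1) hmaps, Mh, fun w hw => hMh _ (hmaps w hw)⟩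
  have hXC : ContDiffOn ℝ ∞ (fun z => (X z : ℂ)) Ω :=
    Complex.ofRealCLM.contDiff.comp_contDiffOn hX
  have hdb : ∀ z ∈ Ω, ‖db (fun z => (X z : ℂ)) z‖ ≤ 2 * ‖fderiv ℝ X z‖ := by
    intro z hz
    have h1 : HasFDerivAt X (fderiv ℝ X z) z :=
      ((hX.contDiffAt (hΩ.mem_nhds hz)).differentiableAt (by simp)).hasFDerivAt
    have h2 : HasFDerivAt (fun z => (X z : ℂ)) (Complex.ofRealCLM.comp (fderiv ℝ X z)) z :=
      Complex.ofRealCLM.hasFDerivAt.comp z h1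
    unfold db
    rw [h2.fderiv]
    have h5 : ∀ v : ℂ, ‖v‖ = 1 → ‖(Complex.ofRealCLM.comp (fderiv ℝ X z)) v‖ ≤
        ‖fderiv ℝ X z‖ := by
      intro v hv
      have h6 := (fderiv ℝ X z).le_opNorm v
      rw [hv, mul_one] at h6
      simpa using h6
    refine (norm_add_le _ _).trans ?_
    rw [norm_mul, Complex.norm_I, one_mul]
    linarith [h5 1 (by simp), h5 Complex.I (by simp)]
  obtain ⟨H, T, ⟨hH, MH, hMH⟩, ⟨hT, MT, hMT⟩, hHT⟩ :=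
    ext_core (F := F) (h := fun w => h (Ψ w)) (l := l) (a := min a t) (b := t / 2) (t := t)
      hΩ hΩR (lt_min ha ht) (by linarith) hFH hh' hXC
      (by
        intro z hz
        rw [Complex.norm_real, Real.norm_eq_abs, abs_of_nonneg (hX01 z hz).1]
        exact (hX01 z hz).2)
      (by
        rintro _ ⟨z, hz, rfl⟩ hzt
        rw [hsF z hz] at hzt
        rw [hX1 z hz (hzt.trans_le (min_le_left _ _))]
        norm_num)
      (by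
        rintro _ ⟨z, hz, rfl⟩ hzt
        rw [hsF z hz] at hzt
        rw [hX0 z hz hzt.le]
        norm_num) hdb (hXi.const_mul (by norm_num))
  refine ⟨min a t, lt_min ha ht, min_le_right _ _, fun z => H (Φ z), fun z => T (Φ z),
    ⟨?_, MH, ?_⟩, ⟨?_, MT, ?_⟩, ?_⟩
  · exact hH.comp hΦd (mapsTo_image _ _)
  · exact fun z hz => hMH _ (mem_image_of_mem _ hz)
  · refine hT.comp (hΦd.mono fun z hz => hz.1) ?_
    rintro z ⟨hz, hzt⟩
    refine ⟨mem_image_of_mem _ hz, ?_⟩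
    rw [hsF z hz]
    exact hzt
  · rintro z ⟨hz, hzt⟩
    refine hMT _ ⟨mem_image_of_mem _ hz, ?_⟩
    rw [hsF z hz]
    exact hzt
  · intro z hz hzt
    have h1 := hHT (Φ z) (mem_image_of_mem _ hz) (by rw [hsF z hz]; exact hzt)
    rw [hΨ1 z hz, hsF z hz] at h1
    exact h1

theorem Tame.mono {W W' : Set ℂ} {s : ℂ → ℂ} (hs : Tame W s) (h : W' ⊆ W) :
    Tame W' s := by
  obtain ⟨hsH, hs2⟩ := hs
  refine ⟨hsH.mono h, fun l t ht => ?_⟩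
  obtain ⟨Φ, hΦ, hinj, X, a, ha, hX, hX01, hX1, hX0, hXi⟩ := hs2 l t ht
  exact ⟨Φ, hΦ.mono h, hinj.mono h, X, a, ha, hX.mono (image_mono h),
    fun w hw => hX01 w (image_mono h hw), fun z hz => hX1 z (h hz), fun z hz => hX0 z (h hz),
    hXi.mono_set (fun _ => norm_nonneg _) (image_mono h)⟩

end Pool.Agent.Work.MP_2cf110_an
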