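import Mathlib

/-! # Definitions: bounded analytic functions, Bezout equation, tame functions -/

open MeasureTheory Set Metric
open scoped ContDiff

namespace Pool.Agent.Work.MP_2cf110_an

/-- `f` is bounded and analytic on `V`: the restriction of `f` to `V` is in `H^∞(V)` -/
def Hinf (V : Set ℂ) (f : ℂ → ℂ) : Prop :=
  DifferentiableOn ℂ f V ∧ ∃ M : ℝ, ∀ z ∈ V, ‖f z‖ ≤ M

/-- the Bezout equation `∑ f_j g_j = 1` has a solution on `W` in bounded analytic functions -/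
def Bez {n : ℕ} (W : Set ℂ) (f : Fin n → ℂ → ℂ) : Prop :=
  ∃ g : Fin n → ℂ → ℂ, (∀ j, Hinf W (g j)) ∧ ∀ z ∈ W, ∑ j, f j z * g j z = 1

/-- `s` is bounded and analytic on `W` and is, in some injective bounded analytic coordinate `Φ`,
a function `F` which is uniformly continuous or has a derivative in `L^p` for some `p > 2`.
Examples are the injective functions (`Φ = s`), and for bounded `W` the uniformly continuous
functions and the functions with derivative in `L^p(W)` (`Φ(z) = z`) -/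
def Coord (W : Set ℂ) (s : ℂ → ℂ) : Prop :=
  Hinf W s ∧ ∃ Φ F : ℂ → ℂ, Hinf W Φ ∧ InjOn Φ W ∧ DifferentiableOn ℂ F (Φ '' W) ∧
    (∀ z ∈ W, s z = F (Φ z)) ∧
    (UniformContinuousOn F (Φ '' W) ∨
      ∃ p : ℝ, 2 < p ∧ IntegrableOn (fun w => ‖deriv F w‖ ^ p) (Φ '' W))

/-- the function `w` has on `Ω` a bounded potential: `∫_Ω w(ζ) / |ζ - u|` is bounded for
`u` in `Ω` -/
def BddPot (Ω : Set ℂ) (w : ℂ → ℝ) : Prop :=
  ∃ K : ℝ, ∀ u ∈ Ω, IntegrableOn (fun ζ => w ζ / ‖ζ - u‖) Ω ∧ ∫ ζ in Ω, w ζ / ‖ζ - u‖ ≤ K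

/-- `s` is a tame function on `W`: for every value `l` and every `t > 0`, the sets
`{|s - l| < a}` (for some `a > 0`) and `{|s - l| ≥ t}` can be separated by a smooth function `X`,
`0 ≤ X ≤ 1`, whose gradient has a bounded potential, in some injective bounded analytic
coordinate `Φ` on `W` -/
def Tame (W : Set ℂ) (s : ℂ → ℂ) : Prop :=
  Hinf W s ∧ ∀ l : ℂ, ∀ t : ℝ, 0 < t → ∃ Φ : ℂ → ℂ, Hinf W Φ ∧ InjOn Φ W ∧
    ∃ (X : ℂ → ℝ) (a : ℝ), 0 < a ∧ ContDiffOn ℝ ∞ X (Φ '' W) ∧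
      (∀ w ∈ Φ '' W, 0 ≤ X w ∧ X w ≤ 1) ∧
      (∀ z ∈ W, ‖s z - l‖ < a → X (Φ z) = 1) ∧
      (∀ z ∈ W, t ≤ ‖s z - l‖ → X (Φ z) = 0) ∧
      BddPot (Φ '' W) (fun w => ‖fderiv ℝ X w‖)

/-- `Gen W h` is the smallest class of functions on `W` which contains all functions as in
`Coord` or `Tame` on `W` and all `S ∘ h` with `S` analytic near the closure of `h(W)`, and which
is closed under sums, products, inverses of functions bounded away from `0` on `W`, and uniform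
limits on `W` -/
inductive Gen (W : Set ℂ) (h : ℂ → ℂ) : (ℂ → ℂ) → Prop
  | coord (s : ℂ → ℂ) : Coord W s → Gen W h s
  | tame (s : ℂ → ℂ) : Tame W s → Gen W h s
  | comp (S : ℂ → ℂ) (N : Set ℂ) : IsOpen N → closure (h '' W) ⊆ N → DifferentiableOn ℂ S N →
      Gen W h (fun z => S (h z))
  | add (f g : ℂ → ℂ) : Gen W h f → Gen W h g → Gen W h (fun z => f z + g z)
  | mul (f g : ℂ → ℂ) : Gen W h f → Gen W h g → Gen W h (fun z => f z * g z)
  | inv (f : ℂ → ℂ) (ε : ℝ) : 0 < ε → (∀ z ∈ W, ε ≤ ‖f z‖) → Gen W h f →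
      Gen W h (fun z => (f z)⁻¹)
  | lim (f : ℂ → ℂ) (F : ℕ → ℂ → ℂ) : (∀ k, Gen W h (F k)) →
      TendstoUniformlyOn F f Filter.atTop W → Gen W h f

end Pool.Agent.Work.MP_2cf110_an
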