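import Pool.Agent.Work.MP_2cf110_an.Cut

/-! # Localisation theorem and corona theorem for tame functions and one arbitrary function -/

open MeasureTheory Set Metric Topology

namespace Pool.Agent.Work.MP_2cf110_an

variable {W : Set ℂ} {s : ℂ → ℂ}

theorem isOpen_sub (hW : IsOpen W) (hs : DifferentiableOn ℂ s W) (l : ℂ) (t : ℝ) :
    IsOpen {z ∈ W | ‖s z - l‖ < t} := by
  have h : ContinuousOn (fun z => ‖s z - l‖) W :=
    (hs.continuousOn.sub continuousOn_const).norm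
  exact h.isOpen_inter_preimage hW isOpen_Iio

/-- a multiple of `s - χ s` near the zero set of `s - χ s` is in the kernel of `χ` -/
theorem Chr.eq_zero_of_dvd (χ : Chr W) (hW : IsOpen W) (hs : Hinf W s) {G T : ℂ → ℂ} {a : ℝ}
    (ha : 0 < a) (hG : Hinf W G) (hT : Hinf {z ∈ W | ‖s z - χ.φ s‖ < a} T)
    (hGT : ∀ z ∈ W, ‖s z - χ.φ s‖ < a → G z = (s z - χ.φ s) * T z) : χ.φ G = 0 := by
  classical
  set l : ℂ := χ.φ s with hl
  set Q : ℂ → ℂ := fun z => if ‖s z - l‖ < a then T z else G z / (s z - l) with hQ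
  have hO := isOpen_sub hW hs.1 l a
  have hsn : ContinuousOn (fun z => ‖s z - l‖) W := (hs.1.continuousOn.sub continuousOn_const).norm
  have hQH : Hinf W Q := by
    constructor
    · intro z hz
      refine DifferentiableAt.differentiableWithinAt ?_
      rcases lt_or_ge (‖s z - l‖) a with hza | hza
      · have h1 : Q =ᶠ[𝓝 z] T := by
          filter_upwards [hO.mem_nhds ⟨hz, hza⟩] with x hx
          simp only [hQ, if_pos hx.2]
        exact (hT.1.differentiableAt (hO.mem_nhds ⟨hz, hza⟩)).congr_of_eventuallyEq h1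
      · have h0 : 0 < ‖s z - l‖ := ha.trans_le hza
        have h1 : Q =ᶠ[𝓝 z] fun x => G x / (s x - l) := by
          filter_upwards [hW.mem_nhds hz,
            (hsn.continuousAt (hW.mem_nhds hz)).eventually (lt_mem_nhds h0)] with x hx hx0
          by_cases hxa : ‖s x - l‖ < a
          · have h2 : s x - l ≠ 0 := norm_pos_iff.1 hx0
            simp only [hQ, if_pos hxa]
            rw [hGT x hx hxa]
            field_simp
          · simp only [hQ, if_neg hxa]
        have h2 : DifferentiableAt ℂ (fun x => G x / (s x - l)) z :=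
          (hG.1.differentiableAt (hW.mem_nhds hz)).div
            ((hs.1.differentiableAt (hW.mem_nhds hz)).sub_const l) (norm_pos_iff.1 h0)
        exact h2.congr_of_eventuallyEq h1
    · obtain ⟨_, MG, hMG⟩ := hG
      obtain ⟨_, MT, hMT⟩ := hT
      refine ⟨max MT (MG / a), fun z hz => ?_⟩
      by_cases hza : ‖s z - l‖ < a
      · simp only [hQ, if_pos hza]
        exact (hMT z ⟨hz, hza⟩).trans (le_max_left _ _)
      · simp only [hQ, if_neg hza, norm_div]
        push Not at hza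
        refine le_trans ?_ (le_max_right _ _)
        exact div_le_div₀ ((norm_nonneg _).trans (hMG z hz)) (hMG z hz) ha hza
  have h1 : χ.φ G = χ.φ (fun z => (s z - l) * Q z) := by
    refine χ.congr _ _ hG ((hs.sub_const l).mul hQH) (fun z hz => ?_)
    show G z = (s z - l) * Q z
    by_cases hza : ‖s z - l‖ < a
    · simp only [hQ, if_pos hza]
      exact hGT z hz hza
    · simp only [hQ, if_neg hza]
      have h2 : s z - l ≠ 0 := by
        intro h0
        apply hza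
        rw [h0, norm_zero]
        exact ha
      field_simp
  rw [h1, χ.mul _ _ (hs.sub_const l) hQH, χ.sub_const hs, ← hl, sub_self, zero_mul]

/-- `H` extends `h` modulo multiples of `s - l` -/
def Ext (W : Set ℂ) (s : ℂ → ℂ) (l : ℂ) (t : ℝ) (h H : ℂ → ℂ) : Prop :=
  Hinf W H ∧ ∃ a, 0 < a ∧ a ≤ t ∧ ∃ T, Hinf {z ∈ W | ‖s z - l‖ < a} T ∧
    ∀ z ∈ W, ‖s z - l‖ < a → H z - h z = (s z - l) * T z

theorem sub_mono (l : ℂ) {a b : ℝ} (h : a ≤ b) :
    {z ∈ W | ‖s z - l‖ < a} ⊆ {z ∈ W | ‖s z - l‖ < b} :=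
  fun _ hz => ⟨hz.1, hz.2.trans_le h⟩

theorem Ext.unique (χ : Chr W) (hW : IsOpen W) (hs : Hinf W s) {t : ℝ} {h h' H H' : ℂ → ℂ}
    (h1 : Ext W s (χ.φ s) t h H) (h2 : Ext W s (χ.φ s) t h' H')
    (hhh : EqOn h h' {z ∈ W | ‖s z - χ.φ s‖ < t}) : χ.φ H = χ.φ H' := by
  obtain ⟨hH, a, ha, hat, T, hT, hHT⟩ := h1
  obtain ⟨hH', b, hb, hbt, T', hT', hHT'⟩ := h2
  have h3 : χ.φ (fun z => H z - H' z) = 0 := by
    refine χ.eq_zero_of_dvd hW hs (a := min a b) (T := fun z => T z - T' z) (lt_min ha hb)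
      (hH.sub hH') ((hT.mono (sub_mono _ (min_le_left _ _))).sub
        (hT'.mono (sub_mono _ (min_le_right _ _)))) ?_
    intro z hz hzm
    have e1 := hHT z hz (hzm.trans_le (min_le_left _ _))
    have e2 := hHT' z hz (hzm.trans_le (min_le_right _ _))
    have e3 : h z = h' z := hhh ⟨hz, hzm.trans_le ((min_le_left _ _).trans hat)⟩
    linear_combination e1 - e2 + e3
  rw [χ.sub hH hH'] at h3
  exact sub_eq_zero.1 h3

theorem Ext.self {l : ℂ} {t : ℝ} (ht : 0 < t) {f : ℂ → ℂ} (hf : Hinf W f) : Ext W s l t f f :=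
  ⟨hf, t, ht, le_rfl, fun _ => 0, Hinf.const 0, fun z _ _ => by ring⟩

theorem Ext.add {l : ℂ} {t : ℝ} {h g H G : ℂ → ℂ} (h1 : Ext W s l t h H) (h2 : Ext W s l t g G) :
    Ext W s l t (fun z => h z + g z) (fun z => H z + G z) := by
  obtain ⟨hH, a, ha, hat, T, hT, hHT⟩ := h1
  obtain ⟨hG, b, hb, hbt, T', hT', hGT⟩ := h2
  refine ⟨hH.add hG, min a b, lt_min ha hb, (min_le_left _ _).trans hat, fun z => T z + T' z,
    (hT.mono (sub_mono _ (min_le_left _ _))).add (hT'.mono (sub_mono _ (min_le_right _ _))), ?_⟩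
  intro z hz hzm
  have e1 := hHT z hz (hzm.trans_le (min_le_left _ _))
  have e2 := hGT z hz (hzm.trans_le (min_le_right _ _))
  linear_combination e1 + e2

theorem Ext.mul {l : ℂ} {t : ℝ} {h g H G : ℂ → ℂ} (hh : Hinf {z ∈ W | ‖s z - l‖ < t} h)
    (h1 : Ext W s l t h H) (h2 : Ext W s l t g G) :
    Ext W s l t (fun z => h z * g z) (fun z => H z * G z) := by
  obtain ⟨hH, a, ha, hat, T, hT, hHT⟩ := h1
  obtain ⟨hG, b, hb, hbt, T', hT', hGT⟩ := h2
  refine ⟨hH.mul hG, min a b, lt_min ha hb, (min_le_left _ _).trans hat,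
    fun z => T z * G z + h z * T' z, ?_, ?_⟩
  · refine ((hT.mono (sub_mono _ (min_le_left _ _))).mul (hG.mono fun z hz => hz.1)).add
      ((hh.mono (sub_mono _ ((min_le_left _ _).trans hat))).mul
        (hT'.mono (sub_mono _ (min_le_right _ _))))
  intro z hz hzm
  have e1 := hHT z hz (hzm.trans_le (min_le_left _ _))
  have e2 := hGT z hz (hzm.trans_le (min_le_right _ _))
  linear_combination e1 * G z + h z * e2

/-- a character can be localised along a tame function -/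
theorem Chr.localize (χ : Chr W) (hW : IsOpen W) (hs : Tame W s) {t : ℝ} (ht : 0 < t) :
    ∃ χ' : Chr {z ∈ W | ‖s z - χ.φ s‖ < t}, ∀ f, Hinf W f → χ'.φ f = χ.φ f := by
  classical
  have hex : ∀ h, Hinf {z ∈ W | ‖s z - χ.φ s‖ < t} h → ∃ H, Ext W s (χ.φ s) t h H := by
    intro h hh
    obtain ⟨a, ha, hat, H, T, h1, h2, h3⟩ := hs.exists_ext hW (χ.φ s) ht hh
    exact ⟨H, h1, a, ha, hat, T, h2, h3⟩
  choose! E hE using hex
  have key : ∀ h H, Hinf {z ∈ W | ‖s z - χ.φ s‖ < t} h → Ext W s (χ.φ s) t h H →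
      χ.φ (E h) = χ.φ H :=
    fun h H hh hH => Ext.unique χ hW hs.1 (hE h hh) hH (fun z _ => rfl)
  refine ⟨⟨fun h => χ.φ (E h), ?_, ?_, ?_, ?_⟩, ?_⟩
  · intro f g hf hg hfg
    exact Ext.unique χ hW hs.1 (hE f hf) (hE g hg) hfg
  · intro f g hf hg
    show χ.φ (E fun z => f z + g z) = χ.φ (E f) + χ.φ (E g)
    rw [key _ _ (hf.add hg) ((hE f hf).add (hE g hg)), χ.add _ _ (hE f hf).1 (hE g hg).1]
  · intro f g hf hg
    show χ.φ (E fun z => f z * g z) = χ.φ (E f) * χ.φ (E g)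
    rw [key _ _ (hf.mul hg) (Ext.mul hf (hE f hf) (hE g hg)), χ.mul _ _ (hE f hf).1 (hE g hg).1]
  · intro c
    show χ.φ (E fun _ => c) = c
    rw [key _ _ (Hinf.const c) (Ext.self ht (Hinf.const c)), χ.const]
  · intro f hf
    exact key _ _ (hf.mono fun z hz => hz.1) (Ext.self ht hf)

/-- the localisation principle -/
theorem bez_of_local {V : Set ℂ} (hV : IsOpen V) (hs : Tame V s) {n : ℕ} {f : Fin n → ℂ → ℂ}
    (hf : ∀ j, Hinf V (f j))
    (hloc : ∀ l ∈ closure (s '' V), ∃ t > 0, Bez {z ∈ V | ‖s z - l‖ < t} f) : Bez V f := by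
  by_contra hcon
  obtain ⟨χ, hχ⟩ := exists_chr hV hf hcon
  have hcl : χ.φ s ∈ closure (s '' V) := by
    rw [Metric.mem_closure_iff]
    intro ε hε
    obtain ⟨z, hz, h⟩ := χ.mem_closure hs.1 ε hε
    exact ⟨s z, mem_image_of_mem _ hz, by rw [dist_comm, dist_eq_norm]; exact h⟩
  obtain ⟨t, ht, g, hg, hfg⟩ := hloc _ hcl
  obtain ⟨χ', hχ'⟩ := χ.localize hV hs ht
  have hf' : ∀ j, Hinf {z ∈ V | ‖s z - χ.φ s‖ < t} (f j) := fun j => (hf j).mono fun z hz => hz.1
  have h1 : χ'.φ (fun z => ∑ j, f j z * g j z) = 0 := by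
    rw [χ'.sum Finset.univ (f := fun j z => f j z * g j z) (fun j _ => (hf' j).mul (hg j))]
    refine Finset.sum_eq_zero fun j _ => ?_
    rw [χ'.mul _ _ (hf' j) (hg j), hχ' _ (hf j), hχ j, zero_mul]
  have h2 : χ'.φ (fun z => ∑ j, f j z * g j z) = χ'.φ (fun _ => 1) := by
    refine χ'.congr _ _ (Hinf.sum Finset.univ fun j _ => (hf' j).mul (hg j)) (Hinf.const 1)
      (fun z hz => hfg z hz)
  rw [h2, χ'.const] at h1
  exact one_ne_zero h1

end Pool.Agent.Work.MP_2cf110_an
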