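import Pool.Agent.Work.MP_2cf110_an.Sol
import Pool.Agent.Work.MP_2cf110_an.Alg

/-! # Localisation of characters along tame functions -/

open MeasureTheory Set Metric Topology
open scoped ContDiff Manifold

namespace Pool.Agent.Work.MP_2cf110_an

/-- an injective analytic function has an analytic inverse -/
theorem exists_inverse {W : Set ℂ} (hW : IsOpen W) {Φ : ℂ → ℂ} (hΦ : DifferentiableOn ℂ Φ W)
    (hinj : InjOn Φ W) :
    IsOpen (Φ '' W) ∧ ∃ Ψ : ℂ → ℂ, DifferentiableOn ℂ Ψ (Φ '' W) ∧ ∀ z ∈ W, Ψ (Φ z) = z := by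
  have han : ∀ z ∈ W, AnalyticAt ℂ Φ z := fun z hz => hΦ.analyticAt (hW.mem_nhds hz)
  have hnc : ∀ z ∈ W, ¬ ∀ᶠ x in 𝓝 z, Φ x = Φ z := by
    intro z hz h
    have h1 : ∀ᶠ x in 𝓝 z, x = z := by
      filter_upwards [h, hW.mem_nhds hz] with x hx hxW
      exact hinj hxW hz hx
    have h2 : ∀ᶠ x in 𝓝[≠] z, x = z := h1.filter_mono nhdsWithin_le_nhds
    have h3 : ∀ᶠ x in 𝓝[≠] z, x ≠ z := eventually_mem_nhdsWithin
    obtain ⟨x, hx1, hx2⟩ := (h2.and h3).exists
    exact hx2 hx1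
  have hopen : ∀ z ∈ W, ∀ U ∈ 𝓝 z, Φ '' U ∈ 𝓝 (Φ z) := by
    intro z hz U hU
    rcases (han z hz).eventually_constant_or_nhds_le_map_nhds with h | h
    · exact (hnc z hz h).elim
    · exact h (Filter.image_mem_map hU)
  have hO : IsOpen (Φ '' W) := by
    rw [isOpen_iff_mem_nhds]
    rintro _ ⟨z, hz, rfl⟩
    exact hopen z hz W (hW.mem_nhds hz)
  set Ψ : ℂ → ℂ := Function.invFunOn Φ W with hΨ
  have hΨ1 : ∀ z ∈ W, Ψ (Φ z) = z := fun z hz => hinj.leftInvOn_invFunOn hz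
  have hcont : ∀ z ∈ W, ContinuousAt Ψ (Φ z) := by
    intro z hz U hU
    rw [hΨ1 z hz] at hU
    rw [Filter.mem_map]
    refine Filter.mem_of_superset (hopen z hz (U ∩ W) (Filter.inter_mem hU (hW.mem_nhds hz))) ?_
    rintro _ ⟨x, hx, rfl⟩
    show Ψ (Φ x) ∈ U
    rw [hΨ1 x hx.2]
    exact hx.1
  have hright : ∀ z ∈ W, ∀ᶠ y in 𝓝 (Φ z), Φ (Ψ y) = y := by
    intro z hz
    filter_upwards [hopen z hz W (hW.mem_nhds hz)] with y hy
    obtain ⟨x, hx, rfl⟩ := hy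
    rw [hΨ1 x hx]
  have hreg : ∀ z ∈ W, deriv Φ z ≠ 0 → DifferentiableAt ℂ Ψ (Φ z) := by
    intro z hz hd
    have h1 : HasDerivAt Φ (deriv Φ z) (Ψ (Φ z)) := by
      rw [hΨ1 z hz]
      exact (han z hz).differentiableAt.hasDerivAt
    exact (HasDerivAt.of_local_left_inverse (hcont z hz) h1 hd (hright z hz)).differentiableAt
  refine ⟨hO, Ψ, ?_, hΨ1⟩
  rintro _ ⟨z, hz, rfl⟩
  refine DifferentiableAt.differentiableWithinAt ?_
  have hdan : AnalyticAt ℂ (deriv Φ) z := (han z hz).deriv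
  rcases hdan.eventually_eq_zero_or_eventually_ne_zero with h | h
  · exfalso
    apply hnc z hz
    obtain ⟨ε, hε, hεb⟩ := Metric.eventually_nhds_iff_ball.1 (h.and (hW.mem_nhds hz))
    have h1 : ∀ x ∈ ball z ε, Φ x = Φ z := by
      intro x hx
      have hdiff : DifferentiableOn ℂ Φ (ball z ε) := fun y hy =>
        ((han y (hεb y hy).2).differentiableAt).differentiableWithinAt
      refine (isOpen_ball.is_const_of_deriv_eq_zero (convex_ball z ε).isPreconnected hdiff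
        (fun y hy => (hεb y hy).1) hx (mem_ball_self hε))
    filter_upwards [ball_mem_nhds z hε] with x hx using h1 x hx
  · have h2 : ∀ᶠ y in 𝓝[≠] (Φ z), DifferentiableAt ℂ Ψ y := by
      have h3 : ∀ᶠ x in 𝓝 z, x ≠ z → deriv Φ x ≠ 0 := by
        rwa [eventually_nhdsWithin_iff] at h
      have h4 : ∀ᶠ x in 𝓝 z, (x ≠ z → deriv Φ x ≠ 0) ∧ x ∈ W := h3.and (hW.mem_nhds hz)
      have h5 : ∀ᶠ y in 𝓝 (Φ z), (Ψ y ≠ z → deriv Φ (Ψ y) ≠ 0) ∧ Ψ y ∈ W := by
        have := hcont z hz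
        unfold ContinuousAt at this
        rw [hΨ1 z hz] at this
        exact this.eventually h4
      rw [eventually_nhdsWithin_iff]
      filter_upwards [h5, hright z hz] with y hy1 hy2 hy3
      have h6 : Ψ y ≠ z := by
        intro h0
        apply hy3
        rw [← hy2, h0]
        rfl
      have h7 := hreg (Ψ y) hy1.2 (hy1.1 h6)
      rwa [hy2] at h7
    exact (Complex.analyticAt_of_differentiable_on_punctured_nhds_of_continuousAt h2
      (hcont z hz)).differentiableAt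

theorem db_mul {f g : ℂ → ℂ} {z : ℂ} (hf : DifferentiableAt ℝ f z) (hg : DifferentiableAt ℝ g z) :
    db (fun z => f z * g z) z = f z * db g z + g z * db f z := by
  unfold db
  rw [fderiv_fun_mul hf hg]
  simp only [add_apply, smul_apply, smul_eq_mul]
  ring

theorem db_sub {f g : ℂ → ℂ} {z : ℂ} (hf : DifferentiableAt ℝ f z) (hg : DifferentiableAt ℝ g z) :
    db (fun z => f z - g z) z = db f z - db g z := by
  unfold db
  rw [fderiv_fun_sub hf hg]
  simp only [sub_apply]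
  ring

theorem db_congr {f g : ℂ → ℂ} {z : ℂ} (h : f =ᶠ[𝓝 z] g) : db f z = db g z := by
  unfold db
  rw [h.fderiv_eq]

theorem db_const (c : ℂ) (z : ℂ) : db (fun _ => c) z = 0 := by
  unfold db
  simp

theorem contDiffAt_db {f : ℂ → ℂ} {z : ℂ} (hf : ContDiffAt ℝ ∞ f z) : ContDiffAt ℝ ∞ (db f) z := by
  have h1 : ContDiffAt ℝ ∞ (fderiv ℝ f) z := hf.fderiv_right (m := ∞) (by simp)
  unfold db
  exact (h1.clm_apply contDiffAt_const).add
    (contDiffAt_const.mul (h1.clm_apply contDiffAt_const))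

theorem BddPot.const_mul {Ω : Set ℂ} {w : ℂ → ℝ} (hw : BddPot Ω w) {c : ℝ} (hc : 0 ≤ c) :
    BddPot Ω (fun z => c * w z) := by
  obtain ⟨K, hK⟩ := hw
  refine ⟨c * K, fun u hu => ?_⟩
  have h1 : (fun ζ => c * w ζ / ‖ζ - u‖) = fun ζ => c * (w ζ / ‖ζ - u‖) := by
    ext ζ; ring
  rw [h1]
  refine ⟨(hK u hu).1.const_mul c, ?_⟩
  rw [integral_const_mul]
  exact mul_le_mul_of_nonneg_left (hK u hu).2 hc

/-- the basic construction with a given cutoff function -/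
theorem ext_core {R : ℝ} {Ω : Set ℂ} (hΩ : IsOpen Ω) (hΩR : Ω ⊆ ball 0 R)
    {F h X : ℂ → ℂ} {l : ℂ} {a b t : ℝ} (ha : 0 < a) (hbt : b < t)
    (hF : Hinf Ω F) (hh : Hinf {z ∈ Ω | ‖F z - l‖ < t} h)
    (hX : ContDiffOn ℝ ∞ X Ω) (hXn : ∀ z ∈ Ω, ‖X z‖ ≤ 1)
    (hX1 : ∀ z ∈ Ω, ‖F z - l‖ < a → X z = 1) (hX0 : ∀ z ∈ Ω, b < ‖F z - l‖ → X z = 0)
    {w : ℂ → ℝ} (hw : ∀ z ∈ Ω, ‖db X z‖ ≤ w z) (hwi : BddPot Ω w) :
    ∃ H T : ℂ → ℂ, Hinf Ω H ∧ Hinf {z ∈ Ω | ‖F z - l‖ < a} T ∧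
      ∀ z ∈ Ω, ‖F z - l‖ < a → H z - h z = (F z - l) * T z := by
  obtain ⟨hFd, MF, hMF⟩ := hF
  obtain ⟨hhd, Mh, hMh⟩ := hh
  have hFc : ContinuousOn F Ω := hFd.continuousOn
  have hFn : ContinuousOn (fun z => ‖F z - l‖) Ω := (hFc.sub continuousOn_const).norm
  have hlt : ∀ z ∈ Ω, ∀ r, ‖F z - l‖ < r → ∀ᶠ x in 𝓝 z, x ∈ Ω ∧ ‖F x - l‖ < r := by
    intro z hz r hr
    exact Filter.Eventually.and (hΩ.mem_nhds hz)
      ((hFn.continuousAt (hΩ.mem_nhds hz)).eventually (gt_mem_nhds hr))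
  have hgt : ∀ z ∈ Ω, ∀ r, r < ‖F z - l‖ → ∀ᶠ x in 𝓝 z, x ∈ Ω ∧ r < ‖F x - l‖ := by
    intro z hz r hr
    exact Filter.Eventually.and (hΩ.mem_nhds hz)
      ((hFn.continuousAt (hΩ.mem_nhds hz)).eventually (lt_mem_nhds hr))
  have hFC : ∀ z ∈ Ω, DifferentiableAt ℂ F z := fun z hz => hFd.differentiableAt (hΩ.mem_nhds hz)
  have hhC : ∀ z ∈ Ω, ‖F z - l‖ < t → AnalyticAt ℂ h z := by
    intro z hz hzt
    have hO : {x ∈ Ω | ‖F x - l‖ < t} ∈ 𝓝 z := hlt z hz t hzt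
    exact hhd.analyticAt hO
  have hXd : ∀ z ∈ Ω, ContDiffAt ℝ ∞ X z := fun z hz => hX.contDiffAt (hΩ.mem_nhds hz)
  have hX1' : ∀ z ∈ Ω, ‖F z - l‖ < a → X =ᶠ[𝓝 z] fun _ => 1 := by
    intro z hz hza
    filter_upwards [hlt z hz a hza] with x hx using hX1 x hx.1 hx.2
  have hX0' : ∀ z ∈ Ω, b < ‖F z - l‖ → X =ᶠ[𝓝 z] fun _ => 0 := by
    intro z hz hzb
    filter_upwards [hgt z hz b hzb] with x hx using hX0 x hx.1 hx.2
  have hdb1 : ∀ z ∈ Ω, ‖F z - l‖ < a → db X z = 0 := by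
    intro z hz hza
    rw [db_congr (hX1' z hz hza), db_const]
  have hdb0 : ∀ z ∈ Ω, b < ‖F z - l‖ → db X z = 0 := by
    intro z hz hzb
    rw [db_congr (hX0' z hz hzb), db_const]
  -- the right hand side
  set H0 : ℂ → ℂ := fun z => h z * db X z * (F z - l)⁻¹ with hH0
  have hH0a : ∀ z ∈ Ω, ‖F z - l‖ < a → H0 z = 0 := by
    intro z hz hza
    simp [hH0, hdb1 z hz hza]
  have hH0b : ∀ z ∈ Ω, b < ‖F z - l‖ → H0 z = 0 := by
    intro z hz hzb
    simp [hH0, hdb0 z hz hzb]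
  have hH0s : ContDiffOn ℝ ∞ H0 Ω := by
    intro z hz
    refine ContDiffAt.contDiffWithinAt ?_
    rcases lt_or_ge (‖F z - l‖) a with hza | hza
    · have h1 : H0 =ᶠ[𝓝 z] fun _ => 0 := by
        filter_upwards [hlt z hz a hza] with x hx using hH0a x hx.1 hx.2
      exact contDiffAt_const.congr_of_eventuallyEq h1
    rcases lt_or_ge b (‖F z - l‖) with hzb | hzb
    · have h1 : H0 =ᶠ[𝓝 z] fun _ => 0 := by
        filter_upwards [hgt z hz b hzb] with x hx using hH0b x hx.1 hx.2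
      exact contDiffAt_const.congr_of_eventuallyEq h1
    have h1 : ContDiffAt ℝ ∞ h z :=
      ((hhC z hz (hzb.trans_lt hbt)).contDiffAt (n := ∞)).restrict_scalars ℝ
    have h2 : ContDiffAt ℝ ∞ (fun x => F x - l) z :=
      (((hFd.analyticAt (hΩ.mem_nhds hz)).contDiffAt (n := ∞)).restrict_scalars ℝ).sub
        contDiffAt_const
    have h3 : F z - l ≠ 0 := by
      intro h0
      rw [h0, norm_zero] at hza
      linarith
    exact (h1.mul (contDiffAt_db (hXd z hz))).mul (h2.inv h3)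
  have hw0 : ∀ z ∈ Ω, 0 ≤ w z := fun z hz => (norm_nonneg _).trans (hw z hz)
  set M : ℝ := max Mh 0 with hM
  have hM0 : 0 ≤ M := le_max_right _ _
  have hH0w : ∀ z ∈ Ω, ‖H0 z‖ ≤ M * a⁻¹ * w z := by
    intro z hz
    have hpos : 0 ≤ M * a⁻¹ * w z := by
      have := hw0 z hz
      positivity
    rcases lt_or_ge (‖F z - l‖) a with hza | hza
    · rw [hH0a z hz hza, norm_zero]; exact hpos
    rcases lt_or_ge b (‖F z - l‖) with hzb | hzb
    · rw [hH0b z hz hzb, norm_zero]; exact hpos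
    have h1 : ‖h z‖ ≤ M := (hMh z ⟨hz, hzb.trans_lt hbt⟩).trans (le_max_left _ _)
    have h2 : ‖F z - l‖⁻¹ ≤ a⁻¹ := inv_anti₀ ha hza
    simp only [hH0, norm_mul, norm_inv]
    calc ‖h z‖ * ‖db X z‖ * ‖F z - l‖⁻¹ ≤ M * w z * a⁻¹ := by
          have := hw z hz
          have := hw0 z hz
          gcongr
      _ = M * a⁻¹ * w z := by ring
  obtain ⟨T0, N, hT0⟩ := exists_sol hΩ hΩR hH0s hH0w (hwi.const_mul (by positivity))
  -- T0 is analytic where the right hand side vanishes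
  have hT0C : ∀ z ∈ Ω, H0 z = 0 → DifferentiableAt ℂ T0 z := by
    intro z hz h0
    obtain ⟨h1, h2, _⟩ := hT0 z hz
    exact complexDiff_of_db h1 (by rw [h2, h0])
  refine ⟨fun z => X z * h z - (F z - l) * T0 z, fun z => - T0 z, ⟨?_, ?_⟩, ⟨?_, ?_⟩, ?_⟩
  · intro z hz
    refine DifferentiableAt.differentiableWithinAt ?_
    obtain ⟨hT1, hT2, _⟩ := hT0 z hz
    have hFr : DifferentiableAt ℝ (fun x => F x - l) z :=
      ((hFC z hz).sub_const l).restrictScalars ℝ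
    have hFdb : db (fun x => F x - l) z = 0 := db_of_complexDiff ((hFC z hz).sub_const l)
    rcases lt_or_ge (‖F z - l‖) t with hzt | hzt
    · have hXr : DifferentiableAt ℝ X z := (hXd z hz).differentiableAt (by simp)
      have hhr : DifferentiableAt ℝ h z := (hhC z hz hzt).differentiableAt.restrictScalars ℝ
      have hhdb : db h z = 0 := db_of_complexDiff (hhC z hz hzt).differentiableAt
      have hA : DifferentiableAt ℝ (fun z => X z * h z) z := hXr.mul hhr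
      have hB : DifferentiableAt ℝ (fun z => (F z - l) * T0 z) z := hFr.mul hT1
      refine complexDiff_of_db (hA.sub hB) ?_
      have e := db_sub hA hB
      rw [db_mul hXr hhr, db_mul hFr hT1, hhdb, hFdb, hT2] at e
      refine e.trans ?_
      by_cases h0 : F z - l = 0
      · have h1 : ‖F z - l‖ < a := by rw [h0, norm_zero]; exact ha
        rw [hdb1 z hz h1, h0]
        ring
      · simp only [hH0]
        field_simp
        ring
    · have hzb : b < ‖F z - l‖ := hbt.trans_le hzt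
      have h1 : (fun z => X z * h z - (F z - l) * T0 z) =ᶠ[𝓝 z] fun z => - ((F z - l) * T0 z) := by
        filter_upwards [hX0' z hz hzb] with x hx
        rw [hx]; ring
      have h2 : DifferentiableAt ℂ (fun z => - ((F z - l) * T0 z)) z :=
        (((hFC z hz).sub_const l).mul (hT0C z hz (hH0b z hz hzb))).neg
      exact h2.congr_of_eventuallyEq h1
  · refine ⟨M + (MF + ‖l‖) * N, fun z hz => ?_⟩
    have h1 : ‖X z * h z‖ ≤ M := by
      rw [norm_mul]
      rcases lt_or_ge (‖F z - l‖) t with hzt | hzt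
      · calc ‖X z‖ * ‖h z‖ ≤ 1 * M :=
            mul_le_mul (hXn z hz) ((hMh z ⟨hz, hzt⟩).trans (le_max_left _ _)) (norm_nonneg _)
              zero_le_one
          _ = M := one_mul _
      · rw [hX0 z hz (hbt.trans_le hzt), norm_zero, zero_mul]
        exact hM0
    have h2 : ‖F z - l‖ ≤ MF + ‖l‖ := (norm_sub_le _ _).trans (by linarith [hMF z hz])
    calc ‖X z * h z - (F z - l) * T0 z‖ ≤ ‖X z * h z‖ + ‖(F z - l) * T0 z‖ := norm_sub_le _ _
      _ ≤ M + (MF + ‖l‖) * N := by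
        rw [norm_mul (F z - l)]
        exact add_le_add h1 (mul_le_mul h2 (hT0 z hz).2.2 (norm_nonneg _)
          ((norm_nonneg _).trans h2))
  · intro z hz
    exact (hT0C z hz.1 (hH0a z hz.1 hz.2)).neg.differentiableWithinAt
  · refine ⟨N, fun z hz => ?_⟩
    show ‖- T0 z‖ ≤ N
    rw [norm_neg]
    exact (hT0 z hz.1).2.2
  · intro z hz hza
    show X z * h z - (F z - l) * T0 z - h z = (F z - l) * - T0 z
    rw [hX1 z hz hza]
    ring

end Pool.Agent.Work.MP_2cf110_an
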