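import Pool.Agent.Work.MP_2cf110_an.One

/-! # Localisation along finitely many tame functions -/

open MeasureTheory Set Metric Topology

namespace Pool.Agent.Work.MP_2cf110_an

theorem tame_of_coord {W : Set ℂ} (hW : IsOpen W) {s : ℂ → ℂ} (hs : Coord W s) : Tame W s := by
  obtain ⟨hsH, Φ, F, hΦ, hinj, hF, hsF, hcase⟩ := hs
  exact tame_of_coordinate hW hsH hΦ hinj hF hsF hcase

theorem bez_of_joint {V : Set ℂ} (hV : IsOpen V) {m : ℕ} {s : Fin m → ℂ → ℂ}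
    (hs : ∀ i, Tame V (s i)) {n : ℕ} {f : Fin n → ℂ → ℂ} (hf : ∀ j, Hinf V (f j))
    (hloc : ∀ l ∈ closure ((fun z i => s i z) '' V : Set (Fin m → ℂ)),
      ∃ t > 0, Bez {z ∈ V | ∀ i, ‖s i z - l i‖ < t} f) : Bez V f := by
  by_contra hcon
  obtain ⟨χ, hχ⟩ := exists_chr hV hf hcon
  set L : List (ℂ → ℂ) := (List.finRange m).map s with hL
  have hLt : ∀ u ∈ L, Tame V u := by
    intro u hu
    rw [hL, List.mem_map] at hu
    obtain ⟨i, -, rfl⟩ := hu
    exact hs i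
  have hmemL : ∀ i, s i ∈ L := by
    intro i
    rw [hL, List.mem_map]
    exact ⟨i, List.mem_finRange i, rfl⟩
  have hcl : (fun i => χ.φ (s i)) ∈ closure ((fun z i => s i z) '' V : Set (Fin m → ℂ)) := by
    rw [Metric.mem_closure_iff]
    intro ε hε
    obtain ⟨W', hW', -, χ2, -, hclose⟩ := Chr.localize_list L χ hV hLt ε hε
    obtain ⟨z, hz, -⟩ := χ2.mem_closure (Hinf.const 0) 1 one_pos
    refine ⟨fun i => s i z, ⟨z, hW' hz, rfl⟩, ?_⟩
    rw [dist_comm, dist_pi_lt_iff hε]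
    intro i
    rw [dist_eq_norm]
    exact hclose (s i) (hmemL i) z hz
  obtain ⟨t, ht, g, hg, hfg⟩ := hloc _ hcl
  obtain ⟨W', hW', -, χ2, hχ2, hclose⟩ := Chr.localize_list L χ hV hLt t ht
  have hsub : W' ⊆ {z ∈ V | ∀ i, ‖s i z - χ.φ (s i)‖ < t} := fun z hz =>
    ⟨hW' hz, fun i => hclose (s i) (hmemL i) z hz⟩
  have hf' : ∀ j, Hinf W' (f j) := fun j => (hf j).mono hW'
  have hg' : ∀ j, Hinf W' (g j) := fun j => (hg j).mono hsub
  have h1 : χ2.φ (fun z => ∑ j, f j z * g j z) = 0 := by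
    rw [χ2.sum Finset.univ (f := fun j z => f j z * g j z) (fun j _ => (hf' j).mul (hg' j))]
    refine Finset.sum_eq_zero fun j _ => ?_
    rw [χ2.mul _ _ (hf' j) (hg' j), hχ2 _ (hf j), hχ j, zero_mul]
  have h2 : χ2.φ (fun z => ∑ j, f j z * g j z) = χ2.φ (fun _ => 1) := by
    refine χ2.congr _ _ (Hinf.sum Finset.univ fun j _ => (hf' j).mul (hg' j)) (Hinf.const 1)
      (fun z hz => hfg z (hsub hz))
  rw [h2, χ2.const] at h1
  exact one_ne_zero h1

end Pool.Agent.Work.MP_2cf110_an
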