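import Pool.Agent.Work.MP_089002_mp.Dbar
import Pool.Agent.Work.MP_2cf110_an.Defs

/-! # Bounded solutions of the Cauchy-Riemann equation with a right hand side in `L^p`, `p > 2`

For `V` open in the ball of radius `R` and `H` smooth on `V` with `|H| ≤ w`, `∫_V w^p ≤ K`, the
Cauchy transform of `H` on `V` solves the equation on `V` and is bounded by a constant which
depends only on `p`, `R`, `K`. -/

open MeasureTheory Topology Set Metric
open scoped ContDiff Real

namespace Pool.Agent.Work.MP_2cf110_an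

open Pool.Agent.Work.MP_089002_mp (ker)

/-- twice the Cauchy-Riemann operator -/
noncomputable def db (f : ℂ → ℂ) (z : ℂ) : ℂ :=
  fderiv ℝ f z 1 + Complex.I * fderiv ℝ f z Complex.I

theorem complexDiff_of_db {f : ℂ → ℂ} {z : ℂ} (hf : DifferentiableAt ℝ f z)
    (h : db f z = 0) : DifferentiableAt ℂ f z := by
  rw [differentiableAt_complex_iff_differentiableAt_real]
  refine ⟨hf, ?_⟩
  rw [smul_eq_mul]
  have hI := Complex.I_mul_I
  unfold db at h
  linear_combination (-Complex.I) * h + fderiv ℝ f z Complex.I * hI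

theorem db_of_complexDiff {f : ℂ → ℂ} {z : ℂ} (hf : DifferentiableAt ℂ f z) : db f z = 0 := by
  rw [differentiableAt_complex_iff_differentiableAt_real] at hf
  unfold db
  rw [hf.2, smul_eq_mul]
  have hI := Complex.I_mul_I
  linear_combination fderiv ℝ f z 1 * hI

/-- `|z|^(-q)` is integrable on balls for `q < 2` -/
theorem integrableOn_rpow {q : ℝ} (hq : q < 2) (R : ℝ) :
    IntegrableOn (fun z : ℂ => ‖z‖ ^ (-q)) (ball 0 R) := by
  have h := integrableOn_fun_norm_addHaar (E := ℂ) (μ := volume) (f := fun y : ℝ => y ^ (-q))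
    (r := R)
  rw [h, Complex.finrank_real_complex]
  rcases le_or_gt R 0 with hR | hR
  · rw [Ioo_eq_empty (by linarith)]; exact integrableOn_empty
  have h2 : IntervalIntegrable (fun x : ℝ => x ^ (1 - q)) volume 0 R :=
    intervalIntegral.intervalIntegrable_rpow' (by linarith)
  rw [intervalIntegrable_iff_integrableOn_Ioo_of_le hR.le] at h2
  refine h2.congr_fun (fun y hy => ?_) measurableSet_Ioo
  have hy0 : 0 < y := hy.1
  simp only [smul_eq_mul]
  rw [show (1 : ℝ) - q = 1 + (-q) by ring, Real.rpow_add hy0]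
  norm_num

/-- the Cauchy transform of a test function solves the equation -/
theorem conv_sol {b : ℂ → ℂ} (hb : ContDiff ℝ ∞ b) (hc : HasCompactSupport b) :
    ∀ z, DifferentiableAt ℝ (fun z => ∫ t, ker t * b (z - t)) z ∧
      db (fun z => ∫ t, ker t * b (z - t)) z = b z := by
  open Pool.Agent.Work.MP_089002_mp in
  set L := ContinuousLinearMap.mul ℝ ℂ with hL
  have hψ : (fun z => ∫ t, ker t * b (z - t)) = convolution ker b L volume := rfl
  rw [hψ]
  have h0 : ContDiff ℝ ∞ (convolution ker b L volume) :=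
    hc.contDiff_convolution_right L Pool.Agent.Work.MP_089002_mp.locallyIntegrable_ker hb
  intro z
  refine ⟨(h0.differentiable (by simp)) z, ?_⟩
  have h1 := hc.hasFDerivAt_convolution_right L
    Pool.Agent.Work.MP_089002_mp.locallyIntegrable_ker (hb.of_le (by simp)) z
  have hb1 : ContDiff ℝ 1 b := hb.of_le (by simp)
  have hcd : HasCompactSupport (fderiv ℝ b) := hc.fderiv ℝ
  have hcont : Continuous (fderiv ℝ b) := hb1.continuous_fderiv (by norm_num)
  have hcd1 : HasCompactSupport (fun w => fderiv ℝ b w 1) :=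
    hcd.comp_left (g := fun D : ℂ →L[ℝ] ℂ => D 1) rfl
  have hcdI : HasCompactSupport (fun w => fderiv ℝ b w Complex.I) :=
    hcd.comp_left (g := fun D : ℂ →L[ℝ] ℂ => D Complex.I) rfl
  have i1 : Integrable (fun t => ker t * fderiv ℝ b (z - t) 1) :=
    hcd1.convolutionExists_right L
      Pool.Agent.Work.MP_089002_mp.locallyIntegrable_ker (by fun_prop) z
  have i2 : Integrable (fun t => ker t * fderiv ℝ b (z - t) Complex.I) :=
    hcdI.convolutionExists_right L
      Pool.Agent.Work.MP_089002_mp.locallyIntegrable_ker (by fun_prop) z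
  have e6 : ∫ t, ker t * (fderiv ℝ b (z - t) 1 + Complex.I * fderiv ℝ b (z - t) Complex.I) =
      (∫ t, ker t * fderiv ℝ b (z - t) 1) +
        Complex.I * ∫ t, ker t * fderiv ℝ b (z - t) Complex.I := by
    rw [← integral_const_mul, ← integral_add i1 (i2.const_mul _)]
    congr 1
    ext t
    ring
  unfold db
  rw [h1.fderiv, convolution_precompR_apply L
      Pool.Agent.Work.MP_089002_mp.locallyIntegrable_ker hcd hcont,
    convolution_precompR_apply L
      Pool.Agent.Work.MP_089002_mp.locallyIntegrable_ker hcd hcont]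
  rw [← Pool.Agent.Work.MP_089002_mp.cauchy_pompeiu hb1 hc z, e6]
  rfl

theorem norm_ker (t : ℂ) : ‖ker t‖ = (2 * π)⁻¹ * ‖t‖⁻¹ := by
  unfold Pool.Agent.Work.MP_089002_mp.ker
  rw [norm_mul, norm_inv, norm_inv, norm_mul]
  simp [abs_of_pos Real.pi_pos]

theorem measurable_ker : Measurable ker := by
  unfold Pool.Agent.Work.MP_089002_mp.ker; fun_prop

/-- the pointwise bound and the integral bound by Young's inequality -/
theorem young_bound (p R : ℝ) (hp : 2 < p) : ∃ A : ℝ, 0 ≤ A ∧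
    ∀ (V : Set ℂ) (w : ℂ → ℝ) (K : ℝ), IsOpen V → V ⊆ ball 0 R → (∀ z ∈ V, 0 ≤ w z) →
      IntegrableOn (fun z => w z ^ p) V → ∫ z in V, w z ^ p ≤ K → ∀ z ∈ V,
      ∃ B : ℂ → ℝ, IntegrableOn B V ∧ (∀ ζ ∈ V, ‖ker (z - ζ)‖ * w ζ ≤ B ζ) ∧
        ∫ ζ in V, B ζ ≤ A * (K + 1) := by
  set q : ℝ := Real.conjExponent p with hqdef
  have hpq : p.HolderConjugate q := Real.HolderConjugate.conjExponent (by linarith)
  have hq2 : q < 2 := by
    rw [hqdef, Real.conjExponent, div_lt_iff₀ (by linarith)]; linarith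
  have hq0 : 0 < q := hpq.symm.pos
  have hp0 : 0 < p := by linarith
  set g : ℂ → ℝ := indicator (ball 0 (2 * R)) (fun t => ‖t‖ ^ (-q)) with hg
  have hgint : Integrable g := by
    rw [hg, integrable_indicator_iff measurableSet_ball]
    exact integrableOn_rpow hq2 _
  have hg0 : ∀ t, 0 ≤ g t := fun t => indicator_nonneg (fun _ _ => by positivity) t
  set c : ℝ := ∫ t, g t with hc
  have hc0 : 0 ≤ c := integral_nonneg hg0
  have hpi := Real.pi_pos
  refine ⟨(2 * π)⁻¹ * (1 / p + c / q), by positivity, ?_⟩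
  intro V w K hV hVR hw hwi hwK z hz
  have hgz : Integrable (fun ζ => g (z - ζ)) := hgint.comp_sub_left z
  have hK0 : 0 ≤ K := le_trans (setIntegral_nonneg hV.measurableSet
    (fun x hx => Real.rpow_nonneg (hw x hx) p)) hwK
  refine ⟨fun ζ => (2 * π)⁻¹ * (w ζ ^ p / p + g (z - ζ) / q), ?_, ?_, ?_⟩
  · exact ((hwi.div_const p).add (hgz.integrableOn.div_const q)).const_mul _
  · intro ζ hζ
    have hmem : z - ζ ∈ ball (0 : ℂ) (2 * R) := by
      have h1 := hVR hz
      have h2 := hVR hζ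
      rw [mem_ball_zero_iff] at h1 h2 ⊢
      calc ‖z - ζ‖ ≤ ‖z‖ + ‖ζ‖ := norm_sub_le _ _
        _ < 2 * R := by linarith
    have hge : g (z - ζ) = (‖z - ζ‖⁻¹) ^ q := by
      rw [hg, indicator_of_mem hmem, Real.inv_rpow (norm_nonneg _), Real.rpow_neg (norm_nonneg _)]
    show ‖ker (z - ζ)‖ * w ζ ≤ (2 * π)⁻¹ * (w ζ ^ p / p + g (z - ζ) / q)
    rw [norm_ker, hge, mul_assoc]
    refine mul_le_mul_of_nonneg_left ?_ (by positivity)
    rw [mul_comm]
    exact Real.young_inequality_of_nonneg (hw ζ hζ) (by positivity) hpq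
  · rw [integral_const_mul, mul_assoc]
    refine mul_le_mul_of_nonneg_left ?_ (by positivity)
    rw [integral_add (hwi.div_const p) (hgz.integrableOn.div_const q), integral_div, integral_div]
    have h1 : ∫ ζ in V, g (z - ζ) ≤ c := by
      have h2 : ∫ ζ in V, g (z - ζ) ≤ ∫ ζ, g (z - ζ) :=
        setIntegral_le_integral hgz (Filter.Eventually.of_forall fun ζ => hg0 _)
      rwa [integral_sub_left_eq_self g volume z] at h2
    have h3 : (∫ ζ in V, w ζ ^ p) / p ≤ K / p := by gcongr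
    have h4 : (∫ ζ in V, g (z - ζ)) / q ≤ c / q := by gcongr
    have h5 : 0 ≤ c / q := by positivity
    have h6 : 0 ≤ 1 / p := by positivity
    have h7 : (1 / p + c / q) * (K + 1) = K / p + c / q + (c / q * K + 1 / p) := by ring
    have h8 : 0 ≤ c / q * K := by positivity
    linarith

/-- the Cauchy transform on `V` -/
noncomputable def ct (V : Set ℂ) (H : ℂ → ℂ) (z : ℂ) : ℂ := ∫ ζ in V, ker (z - ζ) * H ζ

theorem ct_local {V : Set ℂ} (hV : IsOpen V) {H : ℂ → ℂ} (hH : ContDiffOn ℝ ∞ H V)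
    (hint : IntegrableOn H V) {z₀ : ℂ} (hz : z₀ ∈ V) :
    DifferentiableAt ℝ (ct V H) z₀ ∧ db (ct V H) z₀ = H z₀ := by
  obtain ⟨ε, hε, hεV⟩ := Metric.isOpen_iff.1 hV z₀ hz
  -- the cutoff function
  let κ : ContDiffBump z₀ := ⟨ε / 4, ε / 2, by linarith, by linarith⟩
  have hκV : closedBall z₀ (ε / 2) ⊆ V := (closedBall_subset_ball (by linarith)).trans hεV
  set b : ℂ → ℂ := fun ζ => (κ ζ : ℂ) * H ζ with hb
  have hκc : ContDiff ℝ ∞ (fun ζ => (κ ζ : ℂ)) :=
    Complex.ofRealCLM.contDiff.comp κ.contDiff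
  have hbc : ContDiff ℝ ∞ b := by
    rw [contDiff_iff_contDiffAt]
    intro ζ
    by_cases hζ : ζ ∈ V
    · exact hκc.contDiffAt.mul (hH.contDiffAt (hV.mem_nhds hζ))
    · have h1 : ζ ∉ tsupport (fun ζ => κ ζ) := by
        rw [κ.tsupport_eq]; exact fun h => hζ (hκV h)
      have h2 : (fun ζ => κ ζ) =ᶠ[𝓝 ζ] 0 := notMem_tsupport_iff_eventuallyEq.1 h1
      have h3 : b =ᶠ[𝓝 ζ] fun _ => 0 := by
        filter_upwards [h2] with x hx
        have hx' : κ x = 0 := hx
        simp [hb, hx']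
      exact contDiffAt_const.congr_of_eventuallyEq h3
  have hbs : HasCompactSupport b := by
    refine κ.hasCompactSupport.mono' (fun x hx => subset_tsupport _ ?_)
    rw [Function.mem_support] at hx ⊢
    intro h
    apply hx
    simp [hb, h]
  have hbz : b z₀ = H z₀ := by
    have : κ z₀ = 1 := κ.one_of_mem_closedBall (mem_closedBall_self (by positivity))
    simp [hb, this]
  -- the two parts
  have hb0 : ∀ ζ, ζ ∉ V → b ζ = 0 := by
    intro ζ hζ
    have h1 : ζ ∉ Function.support (fun ζ => κ ζ) := by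
      rw [κ.support_eq]; exact fun h => hζ (hκV (ball_subset_closedBall h))
    have h2 : κ ζ = 0 := by simpa using h1
    simp [hb, h2]
  obtain ⟨hu1, hu2⟩ := conv_sol hbc hbs z₀
  set u1 : ℂ → ℂ := fun z => ∫ t, ker t * b (z - t) with hu1def
  have hu1' : ∀ z, u1 z = ∫ ζ in V, ker (z - ζ) * b ζ := by
    intro z
    rw [setIntegral_eq_integral_of_forall_compl_eq_zero (fun ζ hζ => by rw [hb0 ζ hζ, mul_zero])]
    show ∫ t, ker t * b (z - t) = _
    rw [← integral_sub_left_eq_self (fun t => ker t * b (z - t)) volume z]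
    simp
  have hint1 : ∀ z, IntegrableOn (fun ζ => ker (z - ζ) * b ζ) V := by
    intro z
    have h1 : Integrable (fun t => ker t * b (z - t)) :=
      hbs.convolutionExists_right (ContinuousLinearMap.mul ℝ ℂ)
        Pool.Agent.Work.MP_089002_mp.locallyIntegrable_ker hbc.continuous z
    have h2 := h1.comp_sub_left z
    simp only [sub_sub_cancel] at h2
    exact h2.integrableOn
  -- the second part
  set F : ℂ → ℂ → ℂ := fun z ζ => ker (z - ζ) * (H ζ - b ζ) with hF
  set F' : ℂ → ℂ → ℂ := fun z ζ => -((2 * π : ℂ)⁻¹ * ((z - ζ) ^ 2)⁻¹) * (H ζ - b ζ) with hF'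
  have hHb : IntegrableOn (fun ζ => H ζ - b ζ) V := by
    refine hint.sub ?_
    exact (hbc.continuous.integrable_of_hasCompactSupport hbs).integrableOn
  have hHm : AEStronglyMeasurable (fun ζ => H ζ - b ζ) (volume.restrict V) :=
    hHb.aestronglyMeasurable
  have hzero : ∀ ζ, dist ζ z₀ ≤ ε / 4 → H ζ - b ζ = 0 := by
    intro ζ hζ
    have : κ ζ = 1 := κ.one_of_mem_closedBall hζ
    simp [hb, this]
  have hfar : ∀ z ∈ ball z₀ (ε / 8), ∀ ζ, H ζ - b ζ ≠ 0 → ε / 8 ≤ ‖z - ζ‖ := by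
    intro z hz ζ hζ
    by_contra hcon
    push Not at hcon
    apply hζ
    apply hzero
    rw [mem_ball] at hz
    have h1 : dist ζ z₀ ≤ dist ζ z + dist z z₀ := dist_triangle _ _ _
    rw [dist_comm ζ z, dist_eq_norm z ζ] at h1
    linarith
  have hkm : ∀ z, AEStronglyMeasurable (fun ζ => ker (z - ζ)) (volume.restrict V) := by
    intro z
    exact (measurable_ker.comp (measurable_const.sub measurable_id)).aestronglyMeasurable
  have hpi := Real.pi_pos
  have hnb : ∀ z ∈ ball z₀ (ε / 8), ∀ ζ, ‖F z ζ‖ ≤ ((2 * π)⁻¹ * (ε / 8)⁻¹) * ‖H ζ - b ζ‖ := by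
    intro z hz ζ
    rw [hF]
    simp only [norm_mul]
    by_cases h0 : H ζ - b ζ = 0
    · rw [h0]; simp
    · rw [norm_ker]
      have h1 := hfar z hz ζ h0
      gcongr
  have hmem : z₀ ∈ ball z₀ (ε / 8) := mem_ball_self (by positivity)
  have hFint : ∀ z ∈ ball z₀ (ε / 8), IntegrableOn (F z) V := by
    intro z hz
    refine Integrable.mono' (hHb.norm.const_mul ((2 * π)⁻¹ * (ε / 8)⁻¹))
      ((hkm z).mul hHm) (Filter.Eventually.of_forall fun ζ => hnb z hz ζ)
  have hder : HasDerivAt (fun z => ∫ ζ in V, F z ζ) (∫ ζ in V, F' z₀ ζ) z₀ := by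
    refine (hasDerivAt_integral_of_dominated_loc_of_deriv_le (F := F) (F' := F')
      (bound := fun ζ => ((2 * π)⁻¹ * ((ε / 8) ^ 2)⁻¹) * ‖H ζ - b ζ‖)
      (isOpen_ball.mem_nhds hmem) ?_ (hFint z₀ hmem) ?_ ?_ (hHb.norm.const_mul _) ?_).2
    · exact Filter.Eventually.of_forall fun z => (hkm z).mul hHm
    · refine AEStronglyMeasurable.mul ?_ hHm
      exact Measurable.aestronglyMeasurable (by fun_prop)
    · refine Filter.Eventually.of_forall fun ζ z hz => ?_
      rw [hF']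
      simp only [norm_mul, norm_neg]
      by_cases h0 : H ζ - b ζ = 0
      · rw [h0]; simp
      · have h1 := hfar z hz ζ h0
        rw [norm_inv, norm_inv, norm_pow]
        have h2 : ‖(2 * π : ℂ)‖ = 2 * π := by simp [abs_of_pos Real.pi_pos]
        rw [h2]
        gcongr
    · refine Filter.Eventually.of_forall fun ζ z hz => ?_
      rw [hF, hF']
      simp only
      by_cases h0 : H ζ - b ζ = 0
      · rw [h0]
        simp only [mul_zero]
        exact hasDerivAt_const _ _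
      · have h1 := hfar z hz ζ h0
        have h2 : z - ζ ≠ 0 := by
          intro h
          rw [h, norm_zero] at h1
          linarith
        have h3 : HasDerivAt (fun z : ℂ => z - ζ) 1 z := (hasDerivAt_id z).sub_const ζ
        have h4 := ((h3.inv h2).const_mul ((2 * π : ℂ)⁻¹)).mul_const (H ζ - b ζ)
        have h5 : (2 * π : ℂ)⁻¹ * (-1 / (z - ζ) ^ 2) * (H ζ - b ζ) =
            -((2 * π : ℂ)⁻¹ * ((z - ζ) ^ 2)⁻¹) * (H ζ - b ζ) := by
          ring
        rw [← h5]
        exact h4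
  have heq : ct V H =ᶠ[𝓝 z₀] fun z => u1 z + ∫ ζ in V, F z ζ := by
    filter_upwards [isOpen_ball.mem_nhds hmem] with z hz
    rw [hu1' z, ← integral_add (hint1 z) (hFint z hz)]
    unfold ct
    congr 1
    ext ζ
    rw [hF]
    ring
  have hd2 : DifferentiableAt ℂ (fun z => ∫ ζ in V, F z ζ) z₀ := hder.differentiableAt
  have hd2r : DifferentiableAt ℝ (fun z => ∫ ζ in V, F z ζ) z₀ := hd2.restrictScalars ℝ
  have hdb2 := db_of_complexDiff hd2
  constructor
  · exact (hu1.add hd2r).congr_of_eventuallyEq heq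
  · unfold db at hu2 hdb2 ⊢
    rw [heq.fderiv_eq, fderiv_fun_add hu1 hd2r]
    simp only [add_apply]
    rw [← hbz]
    linear_combination hu2 + hdb2

/-- potentials of functions in `L^p` are bounded for `p > 2` -/
theorem bddPot_of_rpow {p R : ℝ} (hp : 2 < p) {V : Set ℂ} (hV : IsOpen V) (hVR : V ⊆ ball 0 R)
    {w : ℂ → ℝ} (hw : ∀ z ∈ V, 0 ≤ w z) (hwc : ContinuousOn w V)
    (hwi : IntegrableOn (fun z => w z ^ p) V) : BddPot V w := by
  obtain ⟨A, hA, hAy⟩ := young_bound p R hp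
  refine ⟨2 * π * (A * ((∫ z in V, w z ^ p) + 1)), fun z hz => ?_⟩
  obtain ⟨B, hBi, hBw, hBA⟩ := hAy V w _ hV hVR hw hwi le_rfl z hz
  have hpi := Real.pi_pos
  have hle : ∀ ζ ∈ V, w ζ / ‖ζ - z‖ ≤ 2 * π * B ζ := by
    intro ζ hζ
    have h1 := hBw ζ hζ
    rw [norm_ker, norm_sub_rev z ζ] at h1
    have h2 : w ζ / ‖ζ - z‖ = 2 * π * ((2 * π)⁻¹ * ‖ζ - z‖⁻¹ * w ζ) := by
      field_simp
    rw [h2]
    exact mul_le_mul_of_nonneg_left h1 (by positivity)
  have h0 : ∀ ζ ∈ V, 0 ≤ w ζ / ‖ζ - z‖ := fun ζ hζ => div_nonneg (hw ζ hζ) (norm_nonneg _)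
  have hint : IntegrableOn (fun ζ => w ζ / ‖ζ - z‖) V := by
    have hm : AEStronglyMeasurable (fun ζ => w ζ / ‖ζ - z‖) (volume.restrict V) := by
      have h1 : AEStronglyMeasurable w (volume.restrict V) :=
        hwc.aestronglyMeasurable hV.measurableSet
      have h2 : AEStronglyMeasurable (fun ζ : ℂ => ‖ζ - z‖⁻¹) (volume.restrict V) :=
        Measurable.aestronglyMeasurable (by fun_prop)
      exact h1.mul h2
    refine Integrable.mono' (hBi.const_mul (2 * π)) hm ?_
    rw [ae_restrict_iff' hV.measurableSet]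
    refine Filter.Eventually.of_forall fun ζ hζ => ?_
    rw [Real.norm_eq_abs, abs_of_nonneg (h0 ζ hζ)]
    exact hle ζ hζ
  refine ⟨hint, ?_⟩
  calc ∫ ζ in V, w ζ / ‖ζ - z‖ ≤ ∫ ζ in V, 2 * π * B ζ :=
        setIntegral_mono_on hint (hBi.const_mul _) hV.measurableSet hle
    _ = 2 * π * ∫ ζ in V, B ζ := integral_const_mul _ _
    _ ≤ _ := mul_le_mul_of_nonneg_left hBA (by positivity)

theorem exists_sol {R : ℝ} {V : Set ℂ} {H : ℂ → ℂ} {w : ℂ → ℝ} (hV : IsOpen V)
    (hVR : V ⊆ ball 0 R) (hH : ContDiffOn ℝ ∞ H V) (hHw : ∀ z ∈ V, ‖H z‖ ≤ w z)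
    (hw : BddPot V w) :
    ∃ (u : ℂ → ℂ) (A : ℝ), ∀ z ∈ V, DifferentiableAt ℝ u z ∧ db u z = H z ∧ ‖u z‖ ≤ A := by
  obtain ⟨K, hK⟩ := hw
  have hw0 : ∀ z ∈ V, 0 ≤ w z := fun z hz => (norm_nonneg _).trans (hHw z hz)
  have hHm : AEStronglyMeasurable H (volume.restrict V) :=
    hH.continuousOn.aestronglyMeasurable hV.measurableSet
  refine ⟨ct V H, (2 * π)⁻¹ * K, fun z hz => ?_⟩
  have hpi := Real.pi_pos
  have hint : IntegrableOn H V := by
    refine Integrable.mono' ((hK z hz).1.const_mul (2 * R)) hHm ?_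
    rw [ae_restrict_iff' hV.measurableSet]
    have hnull : ∀ᵐ ζ : ℂ ∂volume, ζ ≠ z := by
      rw [ae_iff]
      simp
    filter_upwards [hnull] with ζ hne hζ
    refine (hHw ζ hζ).trans ?_
    have h1 : 0 < ‖ζ - z‖ := norm_pos_iff.2 (sub_ne_zero.2 hne)
    have h2 : ‖ζ - z‖ ≤ 2 * R := by
      have h3 := hVR hz
      have h4 := hVR hζ
      rw [mem_ball_zero_iff] at h3 h4
      calc ‖ζ - z‖ ≤ ‖ζ‖ + ‖z‖ := norm_sub_le _ _
        _ ≤ 2 * R := by linarith
    have h5 := hw0 ζ hζ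
    calc w ζ = ‖ζ - z‖ * (w ζ / ‖ζ - z‖) := by field_simp
      _ ≤ 2 * R * (w ζ / ‖ζ - z‖) := mul_le_mul_of_nonneg_right h2 (by positivity)
  obtain ⟨h1, h2⟩ := ct_local hV hH hint hz
  refine ⟨h1, h2, ?_⟩
  unfold ct
  have h3 : ‖∫ ζ in V, ker (z - ζ) * H ζ‖ ≤ ∫ ζ in V, (2 * π)⁻¹ * (w ζ / ‖ζ - z‖) := by
    refine norm_integral_le_of_norm_le ((hK z hz).1.const_mul _) ?_
    rw [ae_restrict_iff' hV.measurableSet]
    refine Filter.Eventually.of_forall fun ζ hζ => ?_
    rw [norm_mul, norm_ker, norm_sub_rev z ζ, mul_assoc]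
    refine mul_le_mul_of_nonneg_left ?_ (by positivity)
    rw [div_eq_mul_inv, mul_comm]
    exact mul_le_mul_of_nonneg_right (hHw ζ hζ) (by positivity)
  refine h3.trans ?_
  rw [integral_const_mul]
  exact mul_le_mul_of_nonneg_left (hK z hz).2 (by positivity)

end Pool.Agent.Work.MP_2cf110_an
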